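import Mathlib
import Pool.Agent.W_MP_955314_co.Defs
import Pool.Agent.W_MP_955314_co.Centroid

namespace Pool.Agent.Results.MP_955314_co.IndependentCentroids

open Pool.Agent.W_MP_955314_co

/-- Let `X ⊂ ℝ^n` be a union of `k` finite orbits `O 0, …, O (k-1)` of a soluble group `G` of
isometries of `ℝ^n`. If the centroids of these orbits are affinely independent (for `k = 2`: if
the two centroids are different), then `X` is contained in a soluble set. -/
theorem result {n k : ℕ} (X : Set (EuclideanSpace ℝ (Fin n)))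
    (G : Subgroup (EuclideanSpace ℝ (Fin n) ≃ᵢ EuclideanSpace ℝ (Fin n)))
    (hG : Group.IsSolvable G)
    (O : Fin k → Finset (EuclideanSpace ℝ (Fin n)))
    (hne : ∀ i, (O i).Nonempty)
    (hinv : ∀ i, ∀ g ∈ G, ∀ x ∈ O i, g x ∈ O i)
    (htrans : ∀ i, ∀ x ∈ O i, ∀ y ∈ O i, ∃ g ∈ G, g x = y)
    (hX : X = ⋃ i, (O i : Set (EuclideanSpace ℝ (Fin n))))
    (hc : AffineIndependent ℝ fun i => centroid (O i)) :
    InSolubleSet X :=
  centroidTheorem X G hG O hne hinv htrans hX.subset hc

end Pool.Agent.Results.MP_955314_co.IndependentCentroids
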