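import Mathlib
import Pool.Agent.W_MP_955314_co.Defs
import Pool.Agent.W_MP_955314_co.CellDefs
import Pool.Agent.W_MP_955314_co.Cell600

namespace Pool.Agent.Results.MP_955314_co.SixHundredCell

open Pool.Agent.W_MP_955314_co

/-- The vertex set of the 600-cell and the vertex set of the 120-cell are contained in soluble
sets. -/
theorem result : InSolubleSet vertices600 ∧ InSolubleSet vertices120 :=
  ⟨vertices600_inSolubleSet, vertices120_inSolubleSet⟩

end Pool.Agent.Results.MP_955314_co.SixHundredCell
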